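import Pool.Agent.Helper21.FX.J
import Pool.Agent.Helper91.FU.L

/-!
MP_c75db0, Plan W: the invariance items of the kinds `0` - `5` in the fused machine as a parameter of
the instance of `Helper12.TE`; the law of `itTG`.
-/

set_option autoImplicit false
noncomputable section
namespace Pool.Agent.Helper21.FX

open Pool.Agent.Helper17.N9 (Kf)
open Pool.Agent.Helper26.IT (condB)
open Pool.Agent.Helper26.SF (Sf)
open Pool.Agent.Helper12.TE (KB BLW)
open Pool.Agent.Helper91.TM
open Pool.Agent.Helper91.TMK.SW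
open Pool.Agent.Helper91.FU (TF TFL ItL itTO_L)
open Pool.Agent.Helper21.SW (Mu)
open Pool.Agent.Helper21.TC

variable {γ : Type}

/-- the fused machine, or the test `b` -/
def bF (b : KB Kf) : KB Kf := fun C c P i f m => cond (jI MT C c P i f m) true (b C c P i f m)

theorem bF_L {b : KB Kf} (hb : BLW lfT KV MT b) : BLW lfT KV MT (bF b) := by
  intro C q r x t bc c P i f m hC h
  rcases condB h with ⟨h, _⟩ | h
  · exact jI_ok hC h
  · exact hb hC h

/-- the law of `fxI` -/
theorem fxI_ItL {C : Cel Kf} {g : GN} {I : IT TP Kf (List γ) (Mu × Sf)} (h : ItL C g I) :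
    ItL C g (fxI I) := by
  intro hg q r x t hC
  obtain ⟨bc, h1, H⟩ := h hg hC
  exact ⟨bc, h1, fxI_L hC H⟩

/-- THE LAW OF THE ITEM TESTS `itTG` -/
theorem itTG_L {U : TF Kf γ} {T : Pool.Agent.Helper21.SW.TK Kf γ} (hU : TFL KV U)
    (hT : Pool.Agent.Helper21.SW.TKL KV T) {C : Cel Kf} {g : GN} : ItL C g (itTG U T C g) := fxI_ItL (itTO_L hU hT)

end Pool.Agent.Helper21.FX
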