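import Pool.Agent.Helper21.FX.K
import Pool.Agent.Helper91.FU.E

/-!
MP_c75db0, Plan W: THE INSTANCE OF THE ITEM TESTS of a cell: kinds `0` - `5` of the items and of the
invariance items in the fused machine.
-/

set_option autoImplicit false
noncomputable section
namespace Pool.Agent.Helper21.FX

open Pool.Agent.Helper86.CX (Cx andB)
open Pool.Agent.Helper17.K9 (V9)
open Pool.Agent.Helper17.N9 (Kf)
open Pool.Agent.Helper26.SF (Sf)
open Pool.Agent.Helper62.NBD (GB)
open Pool.Agent.Helper91.TM (AT TP)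
open Pool.Agent.Helper91.TMK.IT (chK)
open Pool.Agent.Helper91.TMK.SW (Mn Cel IT GN)
open Pool.Agent.Helper91.FU (TF itTO)
open Pool.Agent.Helper21.SW (Mu)
open Pool.Agent.Helper21.TC (MT)
open Pool.Agent.Helper84.TM (kmT)

variable {γ : Type}

/-- AN INVARIANCE ITEM of kind 0 - 5 -/
def jI (M : Mn TP) (C : Cel Kf) (c P i f : Nat) (d : Mu × Sf) : Bool :=
  jJ M.qd (C.H M) (C.L M c) (C.tb c) (chK AT c (C.tb c) (C.L M c).w) c P (C.fo i) (kmT (C.fo f))
    (C.fq i) (C.fq f) d
/-- the invariance items with the fused machine, or the former test -/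
def fxI {δ : Type} (I : IT TP Kf δ (Mu × Sf)) : IT TP Kf δ (Mu × Sf) :=
  ⟨fun C c P i j Sl Sr g => I.k C c P i j Sl Sr g,
    fun C c P i f m => cond (jI MT C c P i f m) true (I.i C c P i f m)⟩
/-- THE ITEM TESTS OF A CELL: items and invariance items with the fused machine, or the former
tests -/
def itTG (U : TF Kf γ) (T : Pool.Agent.Helper21.SW.TK Kf γ) (C : Cel Kf) (g : GN) :
    IT TP Kf (List γ) (Mu × Sf) := fxI (itTO U T C g)

end Pool.Agent.Helper21.FX
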