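import Pool.Agent.Helper21.FX.L
import Pool.Agent.Helper21.FX.E

/-!
MP_c75db0, Plan W: the invariance items in the fused machine: THE LAW OF THE INSTANCE.
-/

set_option autoImplicit false
noncomputable section
namespace Pool.Agent.Helper21.FX

open Pool.Agent.Helper90.KMT (PT)
open Pool.Agent.Helper90.KMO (andB_t)
open Pool.Agent.Helper86.CX (Cx andB)
open Pool.Agent.Helper17.N9 (Kf KfM)
open Pool.Agent.Helper26.SF (Sf)
open Pool.Agent.Helper26.IT (condB RL_K)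
open Pool.Agent.Helper51.FR (RTK)
open Pool.Agent.Helper84.TM (kmT HK_kmT)
open Pool.Agent.Helper91.TM (AT TP lfT)
open Pool.Agent.Helper91.TMK
open Pool.Agent.Helper91.TMK.SW
open Pool.Agent.Helper91.TMK.TST
open Pool.Agent.Helper91.TMK.IT (chK ch_K)
open Pool.Agent.Helper6.MONO (V3)
open Pool.Agent.Helper6.MONO.W2 (Mt nW phi sati cs Pd)
open Pool.Agent.Helper21.SW (Mu cK)
open Pool.Agent.Helper21.TC (MT MT_ok KV)

variable {γ : Type} {C : Cel Kf} {q r : ℕ} {x : ℝ} {t : ℕ → ℝ} {bc : ℕ → ℕ → Prop}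

theorem jI_ok (hC : PtC lfT MT C q r x t) {c P i f : ℕ} {m : Mu × Sf}
    (h : jI MT C c P i f m = true) :
    sati (RTK C.tb (nW (phi C.D.p) (vX C q r x)) bc) (phi C.D.p) (vX C q r x) (cs c)
      (Pd P) (cK (vX C q r x) (KV (C.fo i) t)) (cK (vX C q r x) (KV (C.fo f) t)) :=
  have hL := Cel.L_cs hC c
  jJ_ok MT_ok.n hC.hP hC.two MT_ok.qd hC.H.hv hL.s hL.w hL.P
    (RL_K C.tb _ bc c) (ch_K MT_ok.a3 hC.hP hL.w) (HK_kmT hC.hP (C.fo f)) h

/-- **THE LAW OF THE INSTANCE** -/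
theorem fxI_L {δ : Type} {I : IT TP Kf δ (Mu × Sf)} (hC : PtC lfT MT C q r x t)
    (h : ITL lfT KV I C q r x t (RTK C.tb (nW (phi C.D.p) (vX C q r x)) bc)) :
    ITL lfT KV (fxI I) C q r x t (RTK C.tb (nW (phi C.D.p) (vX C q r x)) bc) :=
  ⟨fun hk hl hr => h.k hk hl hr, fun {c P i f m} hk => by
    rcases condB (show cond (jI MT C c P i f m) true (I.i C c P i f m) = true from hk) with
      ⟨h1, _⟩ | h1
    · exact jI_ok hC h1
    · exact h.i h1⟩

end Pool.Agent.Helper21.FX
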