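import Pool.Agent.Helper91.FU.D
import Pool.Agent.Helper82.TM.ITF
import Pool.Agent.Helper21.TM.MT

/-!
MP_c75db0, Plan W: THE INVARIANCE ITEMS IN THE FUSED MACHINE, kernel side. Same data as `itJ`. The
block `N = x s^* J - t c` of a run (`x`, `s` affine in `ρ`, `t` quadratic) in the frames is
`V = (B N) A` with `B N` shared by the sources of a part; the form `V^* (R K) V` is compared at the
nodes with the source form (exact, from the table). A piece of a family is a form of degree `4` in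
the parameter: five tests of its controls.
-/

set_option autoImplicit false
noncomputable section
namespace Pool.Agent.Helper21.FX

open Pool.Agent.Helper86.C75 (Z)
open Pool.Agent.Helper86.CX (Cx andB psd1)
open Pool.Agent.Helper86.CT (Mo KM Alg addM subM mulM conjM invM cst)
open Pool.Agent.Helper62.TVM (V3m C9)
open Pool.Agent.Helper62.LBM (rhM)
open Pool.Agent.Helper51.FR (LE LM)
open Pool.Agent.Helper26.XH (FH)
open Pool.Agent.Helper26.SF (Sf sfOK sfM)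
open Pool.Agent.Helper82.TST (Fr frK dtC adC nzC smC)
open Pool.Agent.Helper82.FRD (frOK)
open Pool.Agent.Helper17.N9 (Kf Tr Tl3 Bs bsU Lc1 frU kE kNd fmJ OC1 OH1 H19 zoff zng r52 dgt MR2)
open Pool.Agent.Helper91.TM (AT TP)
open Pool.Agent.Helper91.TMK.IT (exOK)
open Pool.Agent.Helper91.FU
open Pool.Agent.Helper21.SW (Mu)

/-! ### small operations -/

/-- real part -/
def reP (x : FP) : FP := ⟨x.a, fO, x.d, x.k⟩
def zp1 (n : Nat) : Nat := Nat.add fO n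
def zm1 (n : Nat) : Nat := Nat.sub fO n
/-- a digit in the unit `2 ^ (-48)` to the unit `2 ^ (-31)`, with offset -/
def zo (x : Z) : Nat := Z.rec (motive := fun _ => Nat) (fun n => zp1 (Nat.shiftRight n (nat_lit 17)))
  (fun n => zm1 (Nat.shiftRight n (nat_lit 17))) x
def zab (x : Z) : Nat := Z.rec (motive := fun _ => Nat) (fun n => n) (fun n => n) x
def kZ1 (a b n : Nat) : FP := ⟨a, b, Nat.add n (nat_lit 0x400000000000000000000000000000000000000000000000000000000000000000000000000000000000000000000000000000000000000000000000000000000000000000000000000000000000000000000000000000000000000000000000000000000000000000000000000000000000000000000000000000000000000000000000000000000000000000000), Nat.ble n (nat_lit 4611686018427387904)⟩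
/-- a complex constant in the unit `2 ^ (-48)` -/
def kZ (x : Cx) : FP := kZ1 (zo x.re) (zo x.im) (Nat.add (zab x.re) (zab x.im))
def cF (c : C9) : F9 := ⟨kZ c.a, kZ c.b, kZ c.c, kZ c.d, kZ c.e, kZ c.f, kZ c.g, kZ c.h, kZ c.i⟩

/-! ### hermitian forms -/

structure K6 where
  a : FP
  b : FP
  c : FP
  x : FP
  y : FP
  w : FP
structure H6 where
  a : RW
  b : RW
  c : RW
  x : RW
  y : RW
  w : RW
def k6V (K : KM TP) : K6 := ⟨reP (toF K.a), reP (toF K.b), reP (toF K.c), toF K.x, toF K.y, toF K.w⟩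
/-- `R K` -/
def rkF (K : K6) (r : FP) : K6 :=
  ⟨reP (rndR (mulS K.a r)), reP (rndR (mulS K.b r)), reP (rndR (mulS K.c r)), rndR (mulS K.x r),
    rndR (mulS K.y r), rndR (mulS K.w r)⟩
/-- product of matrices -/
def mm (X Y : F9) : F9 :=
  ⟨rndR (dt3 X.a X.b X.c Y.a Y.d Y.g), rndR (dt3 X.a X.b X.c Y.b Y.e Y.h),
    rndR (dt3 X.a X.b X.c Y.c Y.f Y.i), rndR (dt3 X.d X.e X.f Y.a Y.d Y.g),
    rndR (dt3 X.d X.e X.f Y.b Y.e Y.h), rndR (dt3 X.d X.e X.f Y.c Y.f Y.i),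
    rndR (dt3 X.g X.h X.i Y.a Y.d Y.g), rndR (dt3 X.g X.h X.i Y.b Y.e Y.h),
    rndR (dt3 X.g X.h X.i Y.c Y.f Y.i)⟩
/-- `r u + y v + z w` with a real `r` -/
def dtS (u r y v z w : FP) : FP := rndR (addR (addR (mulS u r) (mulR y v)) (mulR z w))
/-- `K V`; `x'`, `y'`, `w'`: conjugate entries -/
def kv1 (K : K6) (x' y' w' : FP) (V : F9) : F9 :=
  ⟨dtS V.a K.a K.x V.d K.y V.g, dtS V.b K.a K.x V.e K.y V.h, dtS V.c K.a K.x V.f K.y V.i,
    dtS V.d K.b x' V.a K.w V.g, dtS V.e K.b x' V.b K.w V.h, dtS V.f K.b x' V.c K.w V.i,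
    dtS V.g K.c y' V.a w' V.d, dtS V.h K.c y' V.b w' V.e, dtS V.i K.c y' V.c w' V.f⟩
def kv (K : K6) (V : F9) : F9 := kv1 K (cjF K.x) (cjF K.y) (cjF K.w) V
def cj9 (V : F9) : F9 :=
  ⟨cjF V.a, cjF V.b, cjF V.c, cjF V.d, cjF V.e, cjF V.f, cjF V.g, cjF V.h, cjF V.i⟩
/-- the upper triangle of `V^* Q`, `W` conjugate of `V` -/
def vq (W Q : F9) : H6 :=
  ⟨dt3 W.a W.d W.g Q.a Q.d Q.g, dt3 W.b W.e W.h Q.b Q.e Q.h, dt3 W.c W.f W.i Q.c Q.f Q.i,
    dt3 W.a W.d W.g Q.b Q.e Q.h, dt3 W.a W.d W.g Q.c Q.f Q.i, dt3 W.b W.e W.h Q.c Q.f Q.i⟩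
def ad6 (x y : H6) : H6 :=
  ⟨addR x.a y.a, addR x.b y.b, addR x.c y.c, addR x.x y.x, addR x.y y.y, addR x.w y.w⟩

/-! ### the test of two forms -/

structure E6 where
  a : E1
  b : E1
  c : E1
  x : E1
  y : E1
  w : E1
def e6 (F : H6) : E6 := ⟨enR (nat_lit 0) F.a, enR (nat_lit 0) F.b, enR (nat_lit 0) F.c,
  enR (nat_lit 0) F.x, enR (nat_lit 0) F.y, enR (nat_lit 0) F.w⟩
structure S6 where
  a : Nat
  b : Nat
  c : Nat
  x : Nat
  y : Nat
  w : Nat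
/-- a leaf: layout `30 j + 3 l + e`; scale `2 ^ 40`, constant `C` -/
def lfS (C : Nat) (u : S6) (p : Nat) : Nat :=
  Nat.add (Nat.shiftLeft (Nat.add (gt u.a p MR2) (Nat.add (Nat.shiftLeft (gt u.x p MR2) (nat_lit 384))
    (Nat.add (Nat.shiftLeft (gt u.y p MR2) (nat_lit 768)) (Nat.add (Nat.shiftLeft (gt u.b p MR2) (nat_lit 4224))
      (Nat.add (Nat.shiftLeft (gt u.w p MR2) (nat_lit 4608)) (Nat.shiftLeft (gt u.c p MR2) (nat_lit 8448)))))))
    (nat_lit 40)) C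
def lS3 (K : Nat) (A C B : S6) (p : Nat) : Tr Nat := ⟨lfS K A p, lfS K C p, lfS K B p⟩
def trS (K : Nat) (A C B : S6) : Tr (Tr (Tr Nat)) :=
  ⟨⟨lS3 K A C B (nat_lit 0), lS3 K A C B (nat_lit 320), lS3 K A C B (nat_lit 640)⟩,
   ⟨lS3 K A C B (nat_lit 1120), lS3 K A C B (nat_lit 1440), lS3 K A C B (nat_lit 1760)⟩,
   ⟨lS3 K A C B (nat_lit 2240), lS3 K A C B (nat_lit 2560), lS3 K A C B (nat_lit 2880)⟩⟩
def trE6 (K : Nat) (E : E6) : Tr (Tr (Tr Nat)) :=
  trS K ⟨E.a.u.a, E.b.u.a, E.c.u.a, E.x.u.a, E.y.u.a, E.w.u.a⟩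
    ⟨E.a.u.c, E.b.u.c, E.c.u.c, E.x.u.c, E.y.u.c, E.w.u.c⟩
    ⟨E.a.u.b, E.b.u.b, E.c.u.b, E.x.u.b, E.y.u.b, E.w.u.b⟩
def mp1 (f : Nat → Nat) (x : Tr Nat) : Tr Nat := ⟨f x.a, f x.c, f x.b⟩
def mp2 (f : Nat → Nat) (x : Tr (Tr Nat)) : Tr (Tr Nat) := ⟨mp1 f x.a, mp1 f x.c, mp1 f x.b⟩
def mp3 (f : Nat → Nat) (x : Tr (Tr (Tr Nat))) : Tr (Tr (Tr Nat)) := ⟨mp2 f x.a, mp2 f x.c, mp2 f x.b⟩
/-- `2 ^ 1152 - 2 ^ 103 - 2 ^ 83` -/
def CP : Nat := (nat_lit 61172327492847069472032393719205726809135813743440799050195397570919697796091958321786863938157971792315844506873509046544459008355036150650333616890210625686064472971480622053109783197015954399612052812141827922088117778074833698589048132156300022844899841969874763871624802603515651998113045708569927237462546233158693328791445726280410023854080)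
/-- the test of a control -/
def lfP (c0 c1 c2 x : Nat) : Bool :=
  psd1 (Nat.add (dgt x (nat_lit 0)) c0) (Nat.add (dgt x (nat_lit 4224)) c1)
    (Nat.add (dgt x (nat_lit 8448)) c2) (Nat.add (dgt x (nat_lit 384)) CP)
    (Nat.add (dgt x (nat_lit 512)) CP) (Nat.add (dgt x (nat_lit 768)) CP)
    (Nat.add (dgt x (nat_lit 896)) CP) (Nat.add (dgt x (nat_lit 4608)) CP)
    (Nat.add (dgt x (nat_lit 4736)) CP)
/-- constants of the diagonal; `r`: sum of the radii of a row -/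
def cR (r : Nat) : Nat := Nat.sub CP (Nat.shiftLeft r (nat_lit 43))
def kst (l2 : Nat) (mJ : Z) : Nat := zoff (Nat.add (Nat.mul l2 OC1) OH1) (zng mJ)
def okE6 (E : E6) : Bool :=
  andB E.a.k (andB E.b.k (andB E.c.k (andB E.x.k (andB E.y.k E.w.k))))
def tG1 (c0 c1 c2 l2 C : Nat) (E : E6) (K : Tr (Tr (Tr Nat))) : Bool :=
  Tl3.al (lfP c0 c1 c2) (Tl3.cn (Tl3.sb (trE6 C E) (mp3 (Nat.mul l2) K)))
def ad3 (a b c : Nat) : Nat := Nat.add a (Nat.add b c)
def le60 (r : Nat) : Bool := Nat.ble r (nat_lit 1152921504606846976)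
/-- THE TEST: `K`: the source form at the nodes, `mJ`: `m` times the form `J` in the frame, `l2`: twice
the multiplier -/
def tG (l2 : Nat) (mJ : Z) (K : Tr (Tr (Tr Nat))) (E : E6) : Bool :=
  andB (okE6 E) (andB (le60 (ad3 (ad3 E.a.r E.x.r E.y.r) (ad3 E.b.r E.x.r E.w.r) (ad3 E.c.r E.y.r E.w.r)))
    (tG1 (cR (ad3 E.a.r E.x.r E.y.r)) (cR (ad3 E.b.r E.x.r E.w.r)) (cR (ad3 E.c.r E.y.r E.w.r))
      l2 (kst l2 mJ) E K))

/-! ### the source -/

def pf (x : Cx) (k : Nat) : Nat :=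
  Nat.shiftLeft (Nat.add (zoff H19 x.re) (Nat.shiftLeft (zoff H19 x.im) (nat_lit 20))) k
/-- the frame packed -/
def pkF (c : C9) : Nat :=
  Nat.add (pf c.a (nat_lit 0)) (Nat.add (pf c.b (nat_lit 40)) (Nat.add (pf c.c (nat_lit 80))
    (Nat.add (pf c.d (nat_lit 120)) (Nat.add (pf c.e (nat_lit 160)) (Nat.add (pf c.f (nat_lit 200))
      (Nat.add (pf c.g (nat_lit 240)) (Nat.add (pf c.h (nat_lit 280)) (pf c.i (nat_lit 320)))))))))
def s15 (x : Cx) : Bool := andB (Nat.ble (zab x.re) (nat_lit 32767)) (Nat.ble (zab x.im) (nat_lit 32767))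
def sF (c : C9) : Bool := andB (s15 c.a) (andB (s15 c.b) (andB (s15 c.c) (andB (s15 c.d) (andB (s15 c.e)
  (andB (s15 c.f) (andB (s15 c.g) (andB (s15 c.h) (s15 c.i))))))))
def soB (c : C9) : Bs := bsU Lc1 (frU (pkF c))
/-- the source form at the nodes -/
def soK (c : C9) (K : Kf) : Tr (Tr (Tr Nat)) := kNd (kE Lc1 (soB c)) K
/-- checks of the source, of the multipliers -/
def okS (f : Fr) (K : Kf) : Bool :=
  andB (Nat.beq f.s (nat_lit 68719476736)) (andB (sF f.c) (r52 Lc1 (soK f.c K)))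
def okM (l : Nat) (m : Z) : Bool :=
  andB (Nat.ble l (nat_lit 68719476736)) (Nat.ble (zab m) (nat_lit 281474976710656))
/-- test with the multipliers times `k` -/
def tS (k : Nat) (f : Fr) (K : Kf) (l : Nat) (m : Z) (F : H6) : Bool :=
  tG (Nat.mul (Nat.add k k) l) (Z.mul (Z.mul (Z.p k) m) (fmJ Lc1 (soB f.c))) (soK f.c K) (e6 F)

/-! ### the parts: the block in the frame of the target -/

/-- data of a run: `x = s - r v`, `s + (r - w) v`, `t` -/
structure QN where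
  x : F3
  s : F3
  t : FP
def sv3 (s v : F3) (e : FP) : F3 := ⟨svF s.a e v.a, svF s.b e v.b, svF s.c e v.c⟩
/-- `t = w + r e` -/
def tW (w r e : FP) : FP := rndR (addR (lifR w) (mulS r e))
def qN1 (v s : F3) (w r e : FP) : QN := ⟨sv3 s v (negF r), sv3 s v e, tW w r e⟩
def qN (v s : F3) (w r : FP) : QN := qN1 v s w r (subF r w)
/-- `2 w + r e' + r' e` -/
def t2W (w r e r' e' : FP) : FP := rndR (addR (lifR (addF w w)) (addR (mulS r e') (mulS r' e)))
/-- `B c`, `c = 1 - v v^* J`; `y = -B v` -/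
def bc1 (B : F9) (y z : F3) : F9 :=
  ⟨rndR (addR (lifR B.a) (mulR y.a z.a)), rndR (addR (lifR B.b) (mulR y.a z.b)),
    rndR (addR (lifR B.c) (mulR y.a z.c)), rndR (addR (lifR B.d) (mulR y.b z.a)),
    rndR (addR (lifR B.e) (mulR y.b z.b)), rndR (addR (lifR B.f) (mulR y.b z.c)),
    rndR (addR (lifR B.g) (mulR y.c z.a)), rndR (addR (lifR B.h) (mulR y.c z.b)),
    rndR (addR (lifR B.i) (mulR y.c z.c))⟩
def ng3 (x : F3) : F3 := ⟨negF x.a, negF x.b, negF x.c⟩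
def bcF (B : F9) (v : F3) : F9 := bc1 B (ng3 (mvF B v)) (jF v)
/-- `y z - t b` entrywise; `t' = -t` -/
def yz (y z b t' : FP) : RW := addR (mulR y z) (mulS b t')
def bn1 (D : F9) (y z : F3) (t' : FP) : F9 :=
  ⟨rndR (yz y.a z.a D.a t'), rndR (yz y.a z.b D.b t'), rndR (yz y.a z.c D.c t'),
    rndR (yz y.b z.a D.d t'), rndR (yz y.b z.b D.e t'), rndR (yz y.b z.c D.f t'),
    rndR (yz y.c z.a D.g t'), rndR (yz y.c z.b D.h t'), rndR (yz y.c z.c D.i t')⟩
/-- `B N`; `D = B c` -/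
def bnF (B D : F9) (Q : QN) : F9 := bn1 D (mvF B Q.x) (jF Q.s) (negF Q.t)
def y2 (y z y' z' b t' : FP) : FP := rndR (addR (addR (mulR y z) (mulR y' z')) (mulS b t'))
def bm1 (D : F9) (y z y' z' : F3) (t' : FP) : F9 :=
  ⟨y2 y.a z.a y'.a z'.a D.a t', y2 y.a z.b y'.a z'.b D.b t', y2 y.a z.c y'.a z'.c D.c t',
    y2 y.b z.a y'.b z'.a D.d t', y2 y.b z.b y'.b z'.b D.e t', y2 y.b z.c y'.b z'.c D.f t',
    y2 y.c z.a y'.c z'.a D.g t', y2 y.c z.b y'.c z'.b D.h t', y2 y.c z.c y'.c z'.c D.i t'⟩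
/-- `2 B N` for the middle control; `t`: twice the middle control of `t` -/
def bmF (B D : F9) (P Q : QN) (t : FP) : F9 :=
  bm1 D (mvF B P.x) (jF Q.s) (mvF B Q.x) (jF P.s) (negF t)
/-- the rotation `diag (P, conj P, 1)` -/
def bd (B : F9) (P P' : FP) : F9 :=
  ⟨rndR (mulR B.a P), rndR (mulR B.b P'), B.c, rndR (mulR B.d P), rndR (mulR B.e P'), B.f,
    rndR (mulR B.g P), rndR (mulR B.h P'), B.i⟩
def brF (B : F9) (v : F3) (P : FP) : F9 := bcF (bd B P (cjF P)) v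

/-! ### per source -/

/-- exponent of the rescaling -/
def sE (s : Sf) : Nat := Nat.div (Nat.sub (Nat.log2 s.a0) (nat_lit 48)) (nat_lit 2)
/-- the frame of the source times `2 ^ e` -/
def srA (e : Nat) (f : Fr) : F9 := cF (smC (Nat.shiftLeft f.s e) f.c)
/-- `4 ^ (-e) / 16` -/
def c4 (e : Nat) : Mo TP := cst AT (Nat.shiftRight (nat_lit 17592186044416) (Nat.add e e)) (nat_lit 0)
def rsF (e : Nat) (R : Mo TP) : FP := toF (mulM AT (c4 e) R)

/-- three parameters -/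
def t3V1 (f : Fr) (k1 : Kf) (m : Mu) (K : K6) (V : F9) : Bool :=
  tS (nat_lit 1) f k1 m.l m.m (vq (cj9 V) (kv K V))
def t3V (f : Fr) (k1 : Kf) (m : Mu) (K : K6) (N A : F9) : Bool := t3V1 f k1 m K (mm N A)
/-- a piece: `Va`, `Vc` (twice the middle control), `Vb` -/
def t4V2 (f : Fr) (k1 : Kf) (m : Mu) (W X Y P Q R : F9) : Bool :=
  andB (tS (nat_lit 1) f k1 m.l m.m (vq W P)) (andB (tS (nat_lit 1) f k1 m.l m.m (vq Y R))
    (andB (tS (nat_lit 4) f k1 m.l m.m (ad6 (vq W Q) (vq X P)))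
      (andB (tS (nat_lit 4) f k1 m.l m.m (ad6 (vq X R) (vq Y Q)))
        (tS (nat_lit 6) f k1 m.l m.m (ad6 (ad6 (vq W R) (vq Y P)) (vq X Q))))))
def t4V1 (f : Fr) (k1 : Kf) (m : Mu) (K : K6) (V X Y : F9) : Bool :=
  t4V2 f k1 m (cj9 V) (cj9 X) (cj9 Y) (kv K V) (kv K X) (kv K Y)
def t4V (f : Fr) (k1 : Kf) (m : Mu) (K : K6) (N M L A : F9) : Bool :=
  t4V1 f k1 m K (mm N A) (mm M A) (mm L A)

/-! ### the kinds -/

/-- the frame of the target -/
def tgB (g : Fr) : F9 := cF (smC g.z (adC g.c))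
/-- piece: data of the runs at the end points -/
def t4Q (f : Fr) (k1 : Kf) (m : Mu) (K : K6) (B D A : F9) (w ra rb : FP) (P Q : QN) : Bool :=
  t4V f k1 m K (bnF B D P) (bmF B D P Q (t2W w ra (subF ra w) rb (subF rb w))) (bnF B D Q) A
def t4R (f : Fr) (k1 : Kf) (m : Mu) (K : K6) (B D A : F9) (v s : F3) (w ra rb : FP) : Bool :=
  t4Q f k1 m K B D A w ra rb (qN v s w ra) (qN v s w rb)

/-- kind 0 -/
def jR (f : Fr) (k1 : Kf) (m : Mu) (K : K6) (B A : F9) (v : F3) (P : FP) (c : Nat) : Bool :=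
  andB (Nat.beq (Nat.mod (Nat.div c (nat_lit 2)) (nat_lit 2)) (nat_lit 0))
    (t3V f k1 m K (brF B v P) A)
/-- kind 1 -/
def jE (f : Fr) (k1 : Kf) (m : Mu) (K : K6) (B A : F9) (v : F3) (L : LM TP) (n : Nat) : Bool :=
  Nat.rec (motive := fun _ => Bool) false
    (fun j _ => andB (exOK AT L j)
      (t3V f k1 m K (bnF B (bcF B v) (qN v (f3V L.s) (toF L.w) (toF (rhM AT L.w (invM AT L.w) j).r))) A)) n
/-- kinds 2, 3 -/
def jP (f : Fr) (k1 : Kf) (m : Mu) (K : K6) (B A : F9) (v : F3) (L : LM TP) (C : FP) (a b : Nat) :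
    Bool :=
  t4R f k1 m K B (bcF B v) A v (f3V L.s) (toF L.w) (roF C (kF a)) (roF C (kF b))
def jD (f : Fr) (k1 : Kf) (m : Mu) (K : K6) (B A : F9) (v : F3) (L : LM TP) (E : LE) (C : Mo TP)
    (c k n : Nat) : Bool :=
  cond (Nat.beq k (nat_lit 0)) (jR f k1 m K B A v (toF L.P) c)
    (cond (Nat.beq k (nat_lit 1)) (jE f k1 m K B A v L n)
      (cond (Nat.beq k (nat_lit 2)) (jP f k1 m K B A v L (toF C) (E.tau.getD n (nat_lit 0))
          (E.tau.getD (Nat.succ n) (nat_lit 0)))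
        (cond (Nat.beq k (nat_lit 3)) (jP f k1 m K B A v L (toF C) (E.tau.getD n (nat_lit 0))
            (E.tau.getD (Nat.succ n) (nat_lit 0)))
          (cond (Nat.beq k (nat_lit 4)) true (Nat.beq k (nat_lit 5))))))
def jJ1 (qd : Nat → Cx → Cx → Cx → TP) (F : FH TP) (L : LM TP) (E : LE) (C : Mo TP)
    (c P : Nat) (k1 : Kf) (Kt : KM TP) (f g : Fr) (m : Mu) (s : Sf) (e : Nat) : Bool :=
  jD f k1 m (rkF (k6V (frK AT g Kt)) (rsF e (sfM AT qd s))) (tgB g) (srA e f) (f3V F.v) L E C c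
    (Nat.mod P (nat_lit 8)) (Nat.div P (nat_lit 8))
/-- **ONE INVARIANCE ITEM** -/
def jJ (qd : Nat → Cx → Cx → Cx → TP) (F : FH TP) (L : LM TP) (E : LE) (C : Mo TP) (c P : Nat)
    (k1 : Kf) (Kt : KM TP) (f g : Fr) (d : Mu × Sf) : Bool :=
  andB (frOK f g) (andB (sfOK d.2) (andB (okS f k1) (andB (okM d.1.l d.1.m)
    (andB (Nat.ble (sE d.2) (nat_lit 22)) (jJ1 qd F L E C c P k1 Kt f g d.1 d.2 (sE d.2))))))

end Pool.Agent.Helper21.FX
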