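import Pool.Agent.Helper21.FX.R
import Pool.Agent.Helper55.FX.RowM
import Pool.Agent.Helper55.FX.RowC
import Pool.Agent.Helper87.FX.RowB
import Pool.Agent.Helper35.FX.RowP
import Pool.Agent.Helper38.FX.RowG
import Pool.Agent.Helper91.FU.RA
import Pool.Agent.Helper60.FU.RowR
import Pool.Agent.Helper57.FU.RowM
import Pool.Agent.Helper55.FU.T
import Pool.Agent.Helper82.TM.ITJ

/-!
MP_c75db0, Plan W: the invariance items in the fused machine: THE THEOREM OF THE DISPATCHER.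
-/

set_option autoImplicit false
noncomputable section
namespace Pool.Agent.Helper21.FX

open Matrix
open Pool.Agent.Helper86.C75 (Z)
open Pool.Agent.Helper86.CX (Cx andB)
open Pool.Agent.Helper86.CT (Mo KM invM conjM)
open Pool.Agent.Helper90.KMO (UU UU_pos UUc_ne cz zv andB_t)
open Pool.Agent.Helper90.KMT (PT)
open Pool.Agent.Helper62.TVM (V3m C9)
open Pool.Agent.Helper62.LBM (rhM)
open Pool.Agent.Helper51.FR (LE LM)
open Pool.Agent.Helper26.XH (FH)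
open Pool.Agent.Helper26.XM (sDm_even rfJ_oJ)
open Pool.Agent.Helper26.IT (RL even_of condB Pd_k)
open Pool.Agent.Helper26.SF (Sf sfOK sfM sfR sf_pos)
open Pool.Agent.Helper82.TST (Fr frK frR frS frA C9M hr_cong)
open Pool.Agent.Helper82.FRD (frOK jr ouR run_c IN_fr oJ_ou)
open Pool.Agent.Helper17.N9 (Kf KfM)
open Pool.Agent.Helper91.TM (AT TP lfT)
open Pool.Agent.Helper91.TMK (TOK TW AOK AOKn)
open Pool.Agent.Helper91.TMK.TST (HK TV_frA)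
open Pool.Agent.Helper91.TMK.ITF (a3n TOK_sf' exOK_ok')
open Pool.Agent.Helper91.TMK.BX (CD)
open Pool.Agent.Helper91.TMK.IT (exOK)
open Pool.Agent.Helper91.FU
open Pool.Agent.Helper6.MONO (V3)
open Pool.Agent.Helper6.MONO.W2 (Mt hr J1 rfJ NZ IN rM rn nW ns Sy sDm phi Prt RPar sati Pd cs
  brJ ep)
open Pool.Agent.Helper21.SW (Mu cK)

variable {t : ℕ → ℝ}

theorem kherm {K : Mt} (hK : K.IsHermitian) (V : Mt) : (Vᴴ * (K * V)).IsHermitian := by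
  unfold Matrix.IsHermitian
  rw [Matrix.conjTranspose_mul, Matrix.conjTranspose_mul, Matrix.conjTranspose_conjTranspose,
    hK.eq, mul_assoc]
theorem kherm2 {K : Mt} (hK : K.IsHermitian) (V W : Mt) :
    (Vᴴ * (K * W) + Wᴴ * (K * V)).IsHermitian := by
  unfold Matrix.IsHermitian
  rw [Matrix.conjTranspose_add, Matrix.conjTranspose_mul, Matrix.conjTranspose_mul,
    Matrix.conjTranspose_mul, Matrix.conjTranspose_mul, Matrix.conjTranspose_conjTranspose,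
    Matrix.conjTranspose_conjTranspose, hK.eq, mul_assoc, mul_assoc, add_comm]
theorem pl_mul' (K X Y : Mt) (u : V3) : hr (Xᴴ * (K * Y)) u = pl K (X.mulVec u) (Y.mulVec u) := by
  rw [← mul_assoc, pl_mul]

section

variable {f : Fr} {k1 : Kf} {m : Mu} {K0 A0 : Mt} {K : K6} {A : F9}

/-- three parameters -/
theorem t3V_ok (hP : PT 3 t) (ho : okS f k1 = true) (hm : okM m.l m.m = true)
    (hK : KO t K0 K) {N0 : Mt} {N : F9} (hN : MO t N0 N) (hA : MO t A0 A)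
    (h : t3V f k1 m K N A = true) (ζ : V3) :
    m.l * hr ((frR f)ᴴ * KfM k1 t * frR f) ζ + zv m.m / UU * hr J1 ((C9M f.c).mulVec ζ) ≤
      1048576 * hr K0 ((N0 * A0).mulVec ζ) := by
  have hV := mm_ok hP hN hA
  have k := tS_ok hP (n := 3) (by norm_num) (kherm hK.hm (N0 * A0))
    (vq_ok hP hV (kv_ok hP hK hV)) (k := 1) (by norm_num) ho hm h ζ
  rw [pl_mul', ← hr_pl, Nat.cast_one, one_mul] at k
  exact k

/-- a piece -/
theorem t4V_ok (hP : PT 3 t) (ho : okS f k1 = true) (hm : okM m.l m.m = true)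
    (hK : KO t K0 K) {N0 N1 N2 : Mt} {N M L : F9} (h0 : MO t N0 N) (h1 : MO t N1 M)
    (h2 : MO t N2 L) (hA : MO t A0 A) (h : t4V f k1 m K N M L A = true) {u : ℝ} (u0 : 0 ≤ u)
    (u1 : u ≤ 1) (ζ : V3) :
    m.l * hr ((frR f)ᴴ * KfM k1 t * frR f) ζ + zv m.m / UU * hr J1 ((C9M f.c).mulVec ζ) ≤
      1048576 * hr K0 ((((((1 - u) ^ 2 : ℝ) : ℂ) • N0 + ((u * (1 - u) : ℝ) : ℂ) • N1 +
        ((u ^ 2 : ℝ) : ℂ) • N2) * A0).mulVec ζ) := by
  have hV := mm_ok hP h0 hA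
  have hW := mm_ok hP h1 hA
  have hX := mm_ok hP h2 hA
  have kV := kv_ok hP hK hV
  have kW := kv_ok hP hK hW
  have kX := kv_ok hP hK hX
  obtain ⟨a0, h⟩ := andB_t h
  obtain ⟨a4, h⟩ := andB_t h
  obtain ⟨a1, h⟩ := andB_t h
  obtain ⟨a3, a2⟩ := andB_t h
  set Q : ℝ := m.l * hr ((frR f)ᴴ * KfM k1 t * frR f) ζ +
    zv m.m / UU * hr J1 ((C9M f.c).mulVec ζ) with hQ
  have b0 := tS_ok hP (n := 3) (by norm_num) (kherm hK.hm _) (vq_ok hP hV kV) (k := 1)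
    (by norm_num) ho hm a0 ζ
  have b4 := tS_ok hP (n := 3) (by norm_num) (kherm hK.hm _) (vq_ok hP hX kX) (k := 1)
    (by norm_num) ho hm a4 ζ
  have b1 := tS_ok hP (n := 6) (by norm_num) (kherm2 hK.hm _ _)
    (ad6_ok (vq_ok hP hV kW) (vq_ok hP hW kV)) (k := 4) (by norm_num) ho hm a1 ζ
  have b3 := tS_ok hP (n := 6) (by norm_num) (kherm2 hK.hm _ _)
    (ad6_ok (vq_ok hP hW kX) (vq_ok hP hX kW)) (k := 4) (by norm_num) ho hm a3 ζ
  have b2 := tS_ok hP (n := 9) (by norm_num) ((kherm2 hK.hm _ _).add (kherm hK.hm _))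
    (ad6_ok (ad6_ok (vq_ok hP hV kX) (vq_ok hP hX kV)) (vq_ok hP hW kW)) (k := 6) (by norm_num)
    ho hm a2 ζ
  rw [← hQ] at b0 b1 b2 b3 b4
  rw [pl_mul'] at b0 b4
  rw [hr_add, pl_mul', pl_mul'] at b1 b3
  rw [hr_add, hr_add, pl_mul', pl_mul', pl_mul'] at b2
  have e1 : ((1 : ℕ) : ℝ) = 1 := Nat.cast_one
  have e4 : ((4 : ℕ) : ℝ) = 4 := by norm_num
  have e6 : ((6 : ℕ) : ℝ) = 6 := by norm_num
  rw [e1] at b0 b4
  rw [e4] at b1 b3
  rw [e6] at b2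
  have k := quart (K := K0) (a := (N0 * A0).mulVec ζ) (b := (N1 * A0).mulVec ζ)
    (c := (N2 * A0).mulVec ζ) (Q := Q / 1048576) u0 u1 (by linarith) (by linarith) (by linarith)
    (by linarith) (by linarith)
  have e : (((((1 - u) ^ 2 : ℝ) : ℂ) • N0 + ((u * (1 - u) : ℝ) : ℂ) • N1 +
      ((u ^ 2 : ℝ) : ℂ) • N2) * A0).mulVec ζ = (((1 - u) ^ 2 : ℝ) : ℂ) • (N0 * A0).mulVec ζ +
      ((u * (1 - u) : ℝ) : ℂ) • (N1 * A0).mulVec ζ + ((u ^ 2 : ℝ) : ℂ) • (N2 * A0).mulVec ζ := by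
    rw [add_mul, add_mul, smul_mul_assoc, smul_mul_assoc, smul_mul_assoc, Matrix.add_mulVec,
      Matrix.add_mulVec, Matrix.smul_mulVec, Matrix.smul_mulVec, Matrix.smul_mulVec]
  rw [e]
  linarith

end

/-! ### parameters -/

theorem tau_ex {a b : ℕ} {τ : ℝ} (h1 : (a : ℝ) / UU ≤ τ) (h2 : τ ≤ (b : ℝ) / UU) :
    ∃ u : ℝ, 0 ≤ u ∧ u ≤ 1 ∧ τ = (1 - u) * (a / UU) + u * (b / UU) := by
  by_cases h : (a : ℝ) / UU = b / UU
  · exact ⟨0, le_rfl, zero_le_one, by linarith⟩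
  · have h3 : (a : ℝ) / UU < b / UU := lt_of_le_of_ne (h1.trans h2) h
    have h4 : 0 < (b : ℝ) / UU - a / UU := by linarith
    refine ⟨(τ - a / UU) / (b / UU - a / UU), div_nonneg (by linarith) h4.le,
      (div_le_one h4).2 (by linarith), ?_⟩
    have h5 : τ - a / UU = (τ - a / UU) / (b / UU - a / UU) * (b / UU - a / UU) :=
      (div_mul_cancel₀ _ h4.ne').symm
    linarith

theorem roF_ok (hP : PT 3 t) {ch : ℝ} {C : FP} (hC : FV 1 t (ch : ℂ) C) (a : ℕ) :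
    FV 1 t ((a / UU * ch : ℝ) : ℂ) (roF C (kF a)) := by
  refine (FV.rnd hP (RV.muls hP hC (FV_kF a) (by norm_num) (by norm_num)) (by norm_num)).congr ?_
  push_cast
  ring

/-! ### the parts -/

section

variable {v : V3} {Vm : F3} {f g : Fr} {k1 : Kf} {m : Mu} {K : K6} {Kt : Mt} {s : Sf} {e : ℕ}
variable {r : ℝ}

/-- the hypotheses of an item -/
structure IH (t : ℕ → ℝ) (v : V3) (Vm : F3) (f g : Fr) (k1 : Kf) (m : Mu) (K : K6) (Kt : Mt)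
    (r : ℝ) (e : ℕ) : Prop where
  hP : PT 3 t
  h2 : brJ 1 v v = 2
  fr : frOK f g = true
  so : okS f k1 = true
  mu : okM m.l m.m = true
  v : VO t v Vm
  r0 : 0 < r
  K : KO t (((r / 4 ^ e / 16 : ℝ) : ℂ) • ((frR g)ᴴ * Kt * frR g)) K

theorem in3 (h : IH t v Vm f g k1 m K Kt r e) {M : Mt} {N : F9}
    (hN : MO t (frS g * (M * rfJ 1 v)) N) (h3 : t3V f k1 m K N (srA e f) = true) :
    IN (cK v (KfM k1 t)) (cK v Kt) v M := by
  refine IN_fr h.h2 fun u hu => ?_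
  exact fin_ok h.fr h.r0 rfl (t3V_ok h.hP h.so h.mu h.K hN (srA_ok e f) h3) u hu

theorem cJ (v : V3) : -ouR v (jr v) + 1 = rfJ 1 v := by
  rw [rfJ_oJ, one_smul, oJ_ou]

/-- a run -/
theorem run3 (h : IH t v Vm f g k1 m K Kt r e) {φ : ℝ} {y : Sy} {S : F3}
    (hs : VO t (ns φ v y.1 y.2) S) {W R : FP} (hw : FV 1 t ((nW φ v y : ℝ) : ℂ) W) {ρ : ℝ}
    (hr : FV 1 t (ρ : ℂ) R) :
    MO t (frS g * (rM φ v y ρ * rfJ 1 v))
      (bnF (tgB g) (bcF (tgB g) Vm) (qN Vm S W R)) := by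
  obtain ⟨q1, q2, q3⟩ := qN_ok h.hP h.v hs hw hr
  have k := bnF_ok h.hP (tgB_ok g) (bcF_ok h.hP (tgB_ok g) h.v) q1 q2 q3
  rw [run_c h.h2]
  have e : Pool.Agent.Helper26.XM.tR φ v y ρ = ((nW φ v y + ρ * (ρ - nW φ v y) : ℝ) : ℂ) := by
    unfold Pool.Agent.Helper26.XM.tR
    push_cast
    ring
  rw [e]
  exact k

/-- a piece -/
theorem run4 (h : IH t v Vm f g k1 m K Kt r e) {φ : ℝ} {y : Sy} {S : F3}
    (hs : VO t (ns φ v y.1 y.2) S) {W R R' : FP} (hw : FV 1 t ((nW φ v y : ℝ) : ℂ) W) {a b : ℝ}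
    (ha : FV 1 t (a : ℂ) R) (hb : FV 1 t (b : ℂ) R')
    (h4 : t4R f k1 m K (tgB g) (bcF (tgB g) Vm) (srA e f) Vm S W R R' = true) {u : ℝ}
    (u0 : 0 ≤ u) (u1 : u ≤ 1) :
    IN (cK v (KfM k1 t)) (cK v Kt) v (rM φ v y ((1 - u) * a + u * b)) := by
  obtain ⟨p1, p2, p3⟩ := qN_ok h.hP h.v hs hw ha
  obtain ⟨q1, q2, q3⟩ := qN_ok h.hP h.v hs hw hb
  have hD := bcF_ok h.hP (tgB_ok g) h.v
  have h0 := bnF_ok h.hP (tgB_ok g) hD p1 p2 p3
  have h1 := bmF_ok h.hP (tgB_ok g) hD p1 p2 q1 q2 (t2W_ok h.hP hw ha hb)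
  have h2 := bnF_ok h.hP (tgB_ok g) hD q1 q2 q3
  refine IN_fr h.h2 fun x hx => ?_
  refine fin_ok h.fr h.r0 ?_ (t4V_ok h.hP h.so h.mu h.K h0 h1 h2 (srA_ok e f) h4 u0 u1) x hx
  rw [run_q h.h2]
  simp only [mul_add, mul_smul_comm]

/-- a rotation -/
theorem rot3 (h : IH t v Vm f g k1 m K Kt r e) {φ : ℝ} {y : Sy} (hy : y.2 % 2 = 0) {P : FP}
    (hp : FV 1 t ((if y.1 then star (ep φ) else ep φ) ^ y.2) P) :
    MO t (frS g * (sDm φ y.1 y.2 * rfJ 1 v)) (brF (tgB g) Vm P) := by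
  have k := brF_ok h.hP (tgB_ok g) h.v hp
  rw [cJ] at k
  have e : Matrix.diagonal ![(if y.1 then star (ep φ) else ep φ) ^ y.2,
      star ((if y.1 then star (ep φ) else ep φ) ^ y.2), 1] = sDm φ y.1 y.2 := by
    rw [sDm_even φ y.1 y.2 hy]
    ext i j
    fin_cases i <;> fin_cases j <;> simp [Matrix.diagonal, apply_ite star]
  rw [e, mul_assoc] at k
  exact k

end

/-! ### the dispatcher -/

/-- **THE DISPATCHER** -/
theorem jJ_ok (hA : AOKn 2 3 lfT AT) (hP : PT 3 t) {v : V3} (h2 : brJ 1 v v = 2)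
    {qd : ℕ → Cx → Cx → Cx → TP} (hq : ∀ j < 3, CD 3 j lfT (qd j)) {F : FH TP} {L : LM TP}
    {p c : ℕ} {R : RPar} {E : LE} {C : Mo TP}
    (hv : TW 3 lfT t v F.v) (hs : TW 3 lfT t (ns (phi p) v (cs c).1 (cs c).2) L.s)
    (hw : TOK 3 lfT t ((nW (phi p) v (cs c) : ℝ) : ℂ) L.w)
    (hp : TOK 3 lfT t ((if (cs c).1 then star (ep (phi p)) else ep (phi p)) ^ (cs c).2) L.P)
    (hR : RL R (cs c) E) (hC : TOK 3 lfT t ((R.ch (cs c) : ℝ) : ℂ) C) {P : ℕ} {k1 : Kf} {Kt : Mt}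
    {KM' : KM TP} (hK : HK 3 lfT t Kt KM') {f g : Fr} {d : Mu × Sf}
    (h : jJ qd F L E C c P k1 KM' f g d = true) :
    sati R (phi p) v (cs c) (Pd P) (cK v (KfM k1 t)) (cK v Kt) := by
  have e : ∀ {a : ℕ}, Nat.beq (Nat.mod P (nat_lit 8)) a = true → P % 8 = a := fun h =>
    Nat.eq_of_beq_eq_true h
  obtain ⟨f1, h⟩ := andB_t h
  obtain ⟨f2, h⟩ := andB_t h
  obtain ⟨f3, h⟩ := andB_t h
  obtain ⟨f4, h⟩ := andB_t h
  obtain ⟨f5, h⟩ := andB_t h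
  have hA3 := a3n hA
  have hee : sE d.2 ≤ 22 := Nat.le_of_ble_eq_true f5
  have r0 := sf_pos f2 hP le_rfl
  have hS := TOK_sf' hA3 hP le_rfl hq d.2
  have hKg : HK 3 lfT t ((frR g)ᴴ * Kt * frR g) (frK AT g KM') :=
    hK.g9 hA3 hP (TV_frA hA3 hP g)
  have hI : IH t v (f3V F.v) f g k1 d.1
      (rkF (k6V (frK AT g KM')) (rsF (sE d.2) (sfM AT qd d.2))) Kt (sfR d.2 t) (sE d.2) :=
    ⟨hP, h2, f1, f3, f4, f3V_ok hP hv, r0, rkF_ok hP (k6V_ok hP hKg) (rsF_ok hP hee hS)⟩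
  have hs' := f3V_ok hP hs
  have hw' := FV_to hP hw
  have pc : ∀ (n : ℕ), jP f k1 d.1 (rkF (k6V (frK AT g KM')) (rsF (sE d.2) (sfM AT qd d.2)))
      (tgB g) (srA (sE d.2) f) (f3V F.v) L (toF C) (E.tau.getD n (nat_lit 0))
      (E.tau.getD (Nat.succ n) (nat_lit 0)) = true →
      ∀ τ, R.τ (cs c) n ≤ τ → τ ≤ R.τ (cs c) (n + 1) →
      IN (cK v (KfM k1 t)) (cK v Kt) v (rM (phi p) v (cs c) (τ * R.ch (cs c))) := by
    intro n h τ b1 b2
    rw [hR.τ] at b1 b2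
    obtain ⟨u, u0, u1, hu⟩ := tau_ex b1 b2
    have k := run4 hI hs' hw' (roF_ok hP (FV_to hP hC) _) (roF_ok hP (FV_to hP hC) _) h u0 u1
    have e : τ * R.ch (cs c) = (1 - u) * (((E.tau.getD n 0 : ℕ) : ℝ) / UU * R.ch (cs c)) +
        u * (((E.tau.getD (n + 1) 0 : ℕ) : ℝ) / UU * R.ch (cs c)) := by
      rw [hu]
      ring
    rw [e]
    exact k
  unfold jJ1 jD at h
  rcases condB h with ⟨hk, h⟩ | h
  · rw [Pd_k, e hk]
    obtain ⟨b1, b2⟩ := andB_t h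
    exact in3 hI (rot3 hI (even_of b1) (FV_to hP hp)) b2
  rcases condB h with ⟨hk, h⟩ | h
  · rw [Pd_k, e hk]
    show IN _ _ v (rM (phi p) v (cs c) (rn (nW (phi p) v (cs c)) (P / 8)))
    have h' : jE f k1 d.1 (rkF (k6V (frK AT g KM')) (rsF (sE d.2) (sfM AT qd d.2))) (tgB g)
      (srA (sE d.2) f) (f3V F.v) L (P / 8) = true := h
    generalize P / 8 = n at h' ⊢
    cases n with
    | zero => exact absurd h' Bool.false_ne_true
    | succ j =>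
      obtain ⟨b1, b2⟩ := andB_t (show andB (exOK AT L j) (t3V f k1 d.1
        (rkF (k6V (frK AT g KM')) (rsF (sE d.2) (sfM AT qd d.2)))
        (bnF (tgB g) (bcF (tgB g) (f3V F.v)) (qN (f3V F.v) (f3V L.s) (toF L.w)
          (toF (rhM AT L.w (invM AT L.w) j).r))) (srA (sE d.2) f)) = true from h')
      have hx := exOK_ok' hA hP hw b1
      exact in3 hI (run3 hI hs' hw' (FV_to hP hx.r)) b2
  rcases condB h with ⟨hk, h⟩ | h
  · rw [Pd_k, e hk]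
    intro τ b1 b2
    exact pc _ h τ b1 b2
  rcases condB h with ⟨hk, h⟩ | h
  · rw [Pd_k, e hk]
    intro τ b1 b2
    exact pc _ h τ b1 b2
  rcases condB h with ⟨hk, h⟩ | h
  · rw [Pd_k, e hk]
    trivial
  · rw [Pd_k, e h]
    trivial

end Pool.Agent.Helper21.FX
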