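import Pool.Agent.Helper21.FX.S
import Pool.Agent.Helper82.TM.FR

/-!
MP_c75db0, Plan W: the invariance items in the fused machine, real side: polar forms, a family of
degree two, the final inequality.
-/

set_option autoImplicit false
noncomputable section
namespace Pool.Agent.Helper21.FX

open Matrix
open Pool.Agent.Helper86.C75 (Z)
open Pool.Agent.Helper90.KMO (UU UU_pos UUc_ne cz zv andB_t)
open Pool.Agent.Helper62.TVM (C9)
open Pool.Agent.Helper82.TST (Fr frR frS dtC adC nzC nzC_ok C9M C9M_ad hr_cong hr_smulv)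
open Pool.Agent.Helper82.FRD (frOK jr ouR run_c)
open Pool.Agent.Helper26.SF (hr_smulM)
open Pool.Agent.Helper6.MONO (V3)
open Pool.Agent.Helper6.MONO.W2 (Mt hr hv J1 rfJ NZ rM ns nW Sy brJ)
open Pool.Agent.Helper26.XM (sR tR)
open Pool.Agent.Helper26.XH (sH)

/-- the polar form -/
def pl (K : Mt) (x y : V3) : ℝ := (∑ i, ∑ j, star (x i) * K i j * y j).re

theorem hr_pl (K : Mt) (x : V3) : hr K x = pl K x x := by
  unfold hr hv pl
  simp only [Fin.sum_univ_three, mul_assoc]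

theorem pl_addl (K : Mt) (x y z : V3) : pl K (x + y) z = pl K x z + pl K y z := by
  unfold pl
  rw [← Complex.add_re, ← Finset.sum_add_distrib]
  congr 1
  refine Finset.sum_congr rfl fun i _ => ?_
  rw [← Finset.sum_add_distrib]
  refine Finset.sum_congr rfl fun j _ => ?_
  rw [Pi.add_apply, star_add]
  ring

theorem pl_addr (K : Mt) (x y z : V3) : pl K x (y + z) = pl K x y + pl K x z := by
  unfold pl
  rw [← Complex.add_re, ← Finset.sum_add_distrib]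
  congr 1
  refine Finset.sum_congr rfl fun i _ => ?_
  rw [← Finset.sum_add_distrib]
  refine Finset.sum_congr rfl fun j _ => ?_
  rw [Pi.add_apply]
  ring

theorem pl_sml (K : Mt) (c : ℝ) (x y : V3) : pl K ((c : ℂ) • x) y = c * pl K x y := by
  unfold pl
  rw [← Complex.re_ofReal_mul, Finset.mul_sum]
  congr 1
  refine Finset.sum_congr rfl fun i _ => ?_
  rw [Finset.mul_sum]
  refine Finset.sum_congr rfl fun j _ => ?_
  rw [Pi.smul_apply, smul_eq_mul, star_mul', show star (c : ℂ) = (c : ℂ) from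
    Complex.conj_ofReal c]
  ring

theorem pl_smr (K : Mt) (c : ℝ) (x y : V3) : pl K x ((c : ℂ) • y) = c * pl K x y := by
  unfold pl
  rw [← Complex.re_ofReal_mul, Finset.mul_sum]
  congr 1
  refine Finset.sum_congr rfl fun i _ => ?_
  rw [Finset.mul_sum]
  refine Finset.sum_congr rfl fun j _ => ?_
  rw [Pi.smul_apply, smul_eq_mul]
  ring

theorem pl_mul (K X Y : Mt) (u : V3) : hr (Xᴴ * K * Y) u = pl K (X.mulVec u) (Y.mulVec u) := by
  unfold hr hv pl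
  congr 1
  simp only [Fin.sum_univ_three, Matrix.mul_apply, Matrix.conjTranspose_apply, Matrix.mulVec,
    dotProduct, star_add, star_mul']
  ring

theorem hr_add (K L : Mt) (u : V3) : hr (K + L) u = hr K u + hr L u := by
  unfold hr hv
  rw [← Complex.add_re]
  congr 1
  simp only [Fin.sum_univ_three, Matrix.add_apply]
  ring

/-- **A FORM OF DEGREE FOUR** from its controls -/
theorem quart {K : Mt} {a b c : V3} {Q u : ℝ} (u0 : 0 ≤ u) (u1 : u ≤ 1)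
    (h0 : Q ≤ pl K a a) (h1 : 4 * Q ≤ pl K a b + pl K b a)
    (h2 : 6 * Q ≤ pl K a c + pl K c a + pl K b b) (h3 : 4 * Q ≤ pl K b c + pl K c b)
    (h4 : Q ≤ pl K c c) :
    Q ≤ hr K ((((1 - u) ^ 2 : ℝ) : ℂ) • a + ((u * (1 - u) : ℝ) : ℂ) • b +
      ((u ^ 2 : ℝ) : ℂ) • c) := by
  rw [hr_pl]
  simp only [pl_addl, pl_addr, pl_sml, pl_smr]
  have v0 : 0 ≤ 1 - u := by linarith
  have k0 := mul_le_mul_of_nonneg_left h0 (pow_nonneg v0 4)
  have k1 := mul_le_mul_of_nonneg_left h1 (mul_nonneg u0 (pow_nonneg v0 3))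
  have k2 := mul_le_mul_of_nonneg_left h2 (mul_nonneg (pow_nonneg u0 2) (pow_nonneg v0 2))
  have k3 := mul_le_mul_of_nonneg_left h3 (mul_nonneg (pow_nonneg u0 3) v0)
  have k4 := mul_le_mul_of_nonneg_left h4 (pow_nonneg u0 4)
  have e : Q = (1 - u) ^ 4 * Q + u * (1 - u) ^ 3 * (4 * Q) + u ^ 2 * (1 - u) ^ 2 * (6 * Q) +
      u ^ 3 * (1 - u) * (4 * Q) + u ^ 4 * Q := by ring
  rw [e]
  refine (add_le_add (add_le_add (add_le_add (add_le_add k0 k1) k2) k3) k4).trans (le_of_eq ?_)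
  ring

/-- the runs of a family are quadratic in the parameter -/
theorem run_q {v : V3} (h2 : brJ 1 v v = 2) (φ : ℝ) (g : Sy) (a b u : ℝ) :
    rM φ v g ((1 - u) * a + u * b) * rfJ 1 v =
      (((1 - u) ^ 2 : ℝ) : ℂ) • (ouR (ns φ v g.1 g.2 - (a : ℂ) • v)
          (jr (ns φ v g.1 g.2 - ((nW φ v g - a : ℝ) : ℂ) • v)) -
        ((nW φ v g + a * (a - nW φ v g) : ℝ) : ℂ) • (-ouR v (jr v) + 1)) +
      ((u * (1 - u) : ℝ) : ℂ) • (ouR (ns φ v g.1 g.2 - (a : ℂ) • v)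
          (jr (ns φ v g.1 g.2 - ((nW φ v g - b : ℝ) : ℂ) • v)) +
        ouR (ns φ v g.1 g.2 - (b : ℂ) • v) (jr (ns φ v g.1 g.2 - ((nW φ v g - a : ℝ) : ℂ) • v)) -
        ((2 * nW φ v g + a * (b - nW φ v g) + b * (a - nW φ v g) : ℝ) : ℂ) •
          (-ouR v (jr v) + 1)) +
      ((u ^ 2 : ℝ) : ℂ) • (ouR (ns φ v g.1 g.2 - (b : ℂ) • v)
          (jr (ns φ v g.1 g.2 - ((nW φ v g - b : ℝ) : ℂ) • v)) -
        ((nW φ v g + b * (b - nW φ v g) : ℝ) : ℂ) • (-ouR v (jr v) + 1)) := by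
  rw [run_c h2]
  unfold sR sH tR
  have hc : ∀ r : ℝ, star (r : ℂ) = (r : ℂ) := Complex.conj_ofReal
  generalize -ouR v (jr v) + 1 = C
  ext i j
  have ej : ∀ r : ℝ, jr (ns φ v g.1 g.2 - (r : ℂ) • v) = jr (ns φ v g.1 g.2) - (r : ℂ) • jr v :=
    fun r => Pool.Agent.Helper82.FRD.jr_sub _ _ _
  simp only [ej, ouR, Matrix.add_apply, Matrix.sub_apply, Matrix.smul_apply, Matrix.of_apply,
    smul_eq_mul, Pi.sub_apply, Pi.smul_apply]
  push_cast
  ring

/-- **THE FINAL INEQUALITY** -/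
theorem fin_ok {f g : Fr} (hfr : frOK f g = true) {Kt K1 N V : Mt} {r : ℝ} (h0 : 0 < r) {e : ℕ}
    (hV : V = frS g * N * ((2 ^ e : ℂ) • frR f)) {l : ℕ} {m : Z}
    (h : ∀ ζ : V3, l * hr ((frR f)ᴴ * K1 * frR f) ζ +
      zv m / UU * hr J1 ((C9M f.c).mulVec ζ) ≤
        1048576 * hr (((r / 4 ^ e / 16 : ℝ) : ℂ) • ((frR g)ᴴ * Kt * frR g)) (V.mulVec ζ))
    (u : V3) (hu : u ∈ NZ K1) : 0 ≤ hr Kt (N.mulVec u) := by
  obtain ⟨b1, hfr⟩ := andB_t hfr
  obtain ⟨b2, hfr⟩ := andB_t hfr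
  obtain ⟨b3, hfr⟩ := andB_t hfr
  obtain ⟨b4, b5⟩ := andB_t hfr
  have df := nzC_ok b1
  have dg := nzC_ok b2
  have sf : (f.s : ℂ) ≠ 0 := by
    have : 1 ≤ f.s := Nat.le_of_ble_eq_true b3
    exact_mod_cast (by omega : f.s ≠ 0)
  have sg : (g.s : ℂ) ≠ 0 := by
    have : 1 ≤ g.s := Nat.le_of_ble_eq_true b4
    exact_mod_cast (by omega : g.s ≠ 0)
  have zg : (g.z : ℂ) ≠ 0 := by
    have : 1 ≤ g.z := Nat.le_of_ble_eq_true b5
    exact_mod_cast (by omega : g.z ≠ 0)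
  set ζ : V3 := ((UU : ℂ) / ((f.s : ℂ) * cz (dtC f.c))) • (C9M (adC f.c)).mulVec u with hζ
  have eu : (frR f).mulVec ζ = u := by
    rw [hζ, Matrix.mulVec_smul, frR, Matrix.smul_mulVec, Matrix.mulVec_mulVec, C9M_ad,
      Matrix.smul_mulVec, Matrix.one_mulVec, smul_smul, smul_smul]
    have e : (UU : ℂ) / ((f.s : ℂ) * cz (dtC f.c)) * ((f.s : ℂ) / UU) * cz (dtC f.c) = 1 := by
      have := UUc_ne
      field_simp
    rw [e, one_smul]
  have h3 := h ζ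
  have eJ : hr J1 ((C9M f.c).mulVec ζ) = 0 := by
    have e1 : (C9M f.c).mulVec ζ = ((UU : ℂ) / f.s) • u := by
      have e2 : (frR f).mulVec ζ = ((f.s : ℂ) / UU) • (C9M f.c).mulVec ζ := by
        rw [frR, Matrix.smul_mulVec]
      rw [eu] at e2
      rw [e2, smul_smul]
      have e3 : (UU : ℂ) / f.s * ((f.s : ℂ) / UU) = 1 := by
        have := UUc_ne
        field_simp
      rw [e3, one_smul]
    rw [e1, hr_smulv, hu.2, mul_zero]
  have e4 : (frR g).mulVec (V.mulVec ζ) =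
      ((2 ^ e : ℂ) * ((g.s : ℂ) / UU * ((g.z : ℂ) / UU) * cz (dtC g.c))) • N.mulVec u := by
    rw [hV, mul_smul_comm, Matrix.smul_mulVec, Matrix.mulVec_smul, ← Matrix.mulVec_mulVec,
      ← Matrix.mulVec_mulVec, eu, frR, frS, Matrix.smul_mulVec,
      Matrix.smul_mulVec, Matrix.mulVec_smul, Matrix.mulVec_mulVec, C9M_ad, Matrix.smul_mulVec,
      Matrix.one_mulVec, smul_smul, smul_smul, smul_smul]
    congr 1
    ring
  rw [hr_smulM, hr_cong, hr_cong, eu, e4, hr_smulv, eJ, mul_zero, add_zero] at h3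
  have h5 := mul_nonneg (Nat.cast_nonneg (α := ℝ) l) hu.1
  have hp : 0 < ‖(2 ^ e : ℂ) * ((g.s : ℂ) / UU * ((g.z : ℂ) / UU) * cz (dtC g.c))‖ ^ 2 := by
    have h6 : (2 ^ e : ℂ) * ((g.s : ℂ) / UU * ((g.z : ℂ) / UU) * cz (dtC g.c)) ≠ 0 :=
      mul_ne_zero (pow_ne_zero _ (by norm_num))
        (mul_ne_zero (mul_ne_zero (div_ne_zero sg UUc_ne) (div_ne_zero zg UUc_ne)) dg)
    have := norm_pos_iff.2 h6
    positivity
  have hr0 : 0 < r / 4 ^ e := div_pos h0 (by positivity)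
  have h7 : 0 ≤ r / 4 ^ e *
      (‖(2 ^ e : ℂ) * ((g.s : ℂ) / UU * ((g.z : ℂ) / UU) * cz (dtC g.c))‖ ^ 2 *
        hr Kt (N.mulVec u)) := by
    linarith
  exact nonneg_of_mul_nonneg_right (nonneg_of_mul_nonneg_right h7 hr0) hp

end Pool.Agent.Helper21.FX
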