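import Pool.Agent.Helper21.FX.K
import Pool.Agent.Helper91.FU.S
import Pool.Agent.Helper82.CW.FRD

/-!
MP_c75db0, Plan W: the invariance items in the fused machine, real side: definitions.
-/

set_option autoImplicit false
noncomputable section
namespace Pool.Agent.Helper21.FX

open Pool.Agent.Helper91.FU
open Pool.Agent.Helper6.MONO (V3)
open Pool.Agent.Helper6.MONO.W2 (Mt)

/-- a vector -/
structure VO (t : ℕ → ℝ) (v : V3) (x : F3) : Prop where
  a : FV 1 t (v 0) x.a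
  b : FV 1 t (v 1) x.b
  c : FV 1 t (v 2) x.c
/-- a matrix -/
structure MO (t : ℕ → ℝ) (M : Mt) (X : F9) : Prop where
  a : FV 1 t (M 0 0) X.a
  b : FV 1 t (M 0 1) X.b
  c : FV 1 t (M 0 2) X.c
  d : FV 1 t (M 1 0) X.d
  e : FV 1 t (M 1 1) X.e
  f : FV 1 t (M 1 2) X.f
  g : FV 1 t (M 2 0) X.g
  h : FV 1 t (M 2 1) X.h
  i : FV 1 t (M 2 2) X.i
/-- a hermitian form -/
structure KO (t : ℕ → ℝ) (K : Mt) (X : K6) : Prop where
  a : FV 1 t (K 0 0) X.a
  b : FV 1 t (K 1 1) X.b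
  c : FV 1 t (K 2 2) X.c
  x : FV 1 t (K 0 1) X.x
  y : FV 1 t (K 0 2) X.y
  w : FV 1 t (K 1 2) X.w
  hm : K.IsHermitian
/-- the upper triangle of a matrix, sums of products -/
structure HO (n : ℕ) (t : ℕ → ℝ) (F : Mt) (X : H6) : Prop where
  a : RV n t (F 0 0) X.a
  b : RV n t (F 1 1) X.b
  c : RV n t (F 2 2) X.c
  x : RV n t (F 0 1) X.x
  y : RV n t (F 0 2) X.y
  w : RV n t (F 1 2) X.w

end Pool.Agent.Helper21.FX
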